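import Pool.Agent.W957.CH.Stm2

/-! The extremal situation. -/

set_option autoImplicit false

open Finset Pool.Agent.W957.CH

namespace Pool.Agent.W891.CH.REG

theorem mem_nbr {V : Type} {G : SimpleGraph V} {A P : Finset V} {w : V} :
    w ∈ nbr G A P ↔ w ∈ A ∧ w ∉ P ∧ ∃ p ∈ P, G.Adj p w := by
  unfold nbr
  simp only [Finset.mem_filter]

theorem mem_nbr1 {V : Type} {G : SimpleGraph V} {A : Finset V} {v w : V} :
    w ∈ nbr G A {v} ↔ w ∈ A ∧ G.Adj v w := by
  rw [mem_nbr]
  constructor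
  · rintro ⟨h1, _, p, hp, h⟩
    rw [Finset.mem_singleton] at hp
    subst hp
    exact ⟨h1, h⟩
  · rintro ⟨h1, h⟩
    refine ⟨h1, ?_, v, Finset.mem_singleton_self v, h⟩
    intro hw
    rw [Finset.mem_singleton] at hw
    exact h.ne hw.symm

theorem exists_min {α : Type} (P : α → Prop) (φ : α → ℕ) (hne : ∃ a, P a) :
    ∃ a, P a ∧ ∀ b, P b → φ a ≤ φ b := by
  classical
  obtain ⟨a0, ha0⟩ := hne
  have hex : ∃ n, ∃ a, P a ∧ φ a = n := ⟨_, a0, ha0, rfl⟩
  obtain ⟨a, ha, hn⟩ := Nat.find_spec hex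
  refine ⟨a, ha, fun b hb => ?_⟩
  have h := Nat.find_min' hex ⟨b, hb, rfl⟩
  omega

theorem exists_max {α : Type} (P : α → Prop) (φ : α → ℕ) (N : ℕ) (hN : ∀ a, P a → φ a ≤ N)
    (hne : ∃ a, P a) : ∃ a, P a ∧ ∀ b, P b → φ b ≤ φ a := by
  obtain ⟨a, ha, h⟩ := exists_min P (fun a => N - φ a) hne
  refine ⟨a, ha, fun b hb => ?_⟩
  have h1 := h b hb
  have h2 := hN a ha
  have h3 := hN b hb
  omega

theorem t_REG (h1 : S_FOR) (h2 : S_LC) : S_REG := by
  classical
  intro V _ _ _ G _ k F hk hF hk0 hF2 hF4 hFk4 hbig hdeg hch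
  -- the minimal set
  obtain ⟨W, ⟨hWne, hWdeg⟩, hWmin⟩ := exists_min
    (fun W : Finset V => W.Nonempty ∧ ∀ v ∈ W, 3 ≤ (nbr G W {v}).card) (fun W => W.card)
    ⟨Finset.univ, Finset.univ_nonempty, by
      intro v _
      refine (hdeg v).trans ?_
      rw [← SimpleGraph.card_neighborFinset_eq_degree]
      refine Finset.card_le_card ?_
      intro w hw
      rw [SimpleGraph.mem_neighborFinset] at hw
      exact mem_nbr1.2 ⟨Finset.mem_univ _, hw⟩⟩
  -- the longest cycles
  have hlen : ∀ l, Cyc G l → l.length ≤ Fintype.card V := fun l hl => hl.2.1.1.length_le_card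
  obtain ⟨lam, hlam1, hlam2⟩ : ∃ lam : Finset V → ℕ,
      (∀ A l, Cyc G l → (∀ x ∈ l, x ∈ A) → l.length ≤ lam A) ∧
      (∀ A, lam A ≠ 0 → ∃ l, Cyc G l ∧ (∀ x ∈ l, x ∈ A) ∧ l.length = lam A) := by
    refine ⟨fun A => Nat.findGreatest
      (fun n => ∃ l, Cyc G l ∧ (∀ x ∈ l, x ∈ A) ∧ l.length = n) (Fintype.card V), ?_, ?_⟩
    · intro A l hl hA
      exact Nat.le_findGreatest (hlen l hl) ⟨l, hl, hA, rfl⟩
    · intro A hA
      exact Nat.findGreatest_of_ne_zero rfl hA
  -- the minimal region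
  obtain ⟨⟨A, B⟩, hAB, hmin⟩ := exists_min (fun R : Finset V × Finset V => R.2 ⊆ R.1 ∧ R.1 ⊆ W ∧
      (R.1 \ R.2).Nonempty ∧ (∀ v ∈ R.1, v ∉ R.2 → ∀ w ∈ W, G.Adj v w → w ∈ R.1) ∧
      R.2.card ≤ k (lam R.1) + 2) (fun R => R.1.card)
    ⟨(W, ∅), by simp, Finset.Subset.refl _, by simpa using hWne,
      fun v _ _ w hw _ => hw, by simp⟩
  simp only at hAB hmin
  obtain ⟨hBA, hAW, hne, hcl, hB⟩ := hAB
  have hdegA : ∀ v ∈ A, v ∉ B → 3 ≤ (nbr G A {v}).card := by
    intro v hv hvB
    refine (hWdeg v (hAW hv)).trans (Finset.card_le_card ?_)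
    intro w hw
    rw [mem_nbr1] at hw ⊢
    exact ⟨hcl v hv hvB w hw.1 hw.2, hw.2⟩
  have hl0 : lam A ≠ 0 := by
    intro h0
    rw [h0, hk0] at hB
    obtain ⟨l, hl, hlA⟩ := h1 V G A B hBA hne hdegA (by omega)
    have h3 := hlam1 A l hl hlA
    have h4 := hl.1
    omega
  obtain ⟨l1, hl1, hl1A, hl1len⟩ := hlam2 A hl0
  have hchm : ∀ l, Cyc G l → (∀ x ∈ l, x ∈ A) → F (k l.length) ≤ F (k (lam A)) :=
    fun l hl hlA => hF (hk (hlam1 A l hl hlA))
  have hm1 : 1 ≤ F (k (lam A)) := by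
    have h3 := hch l1 hl1
    rw [hl1len] at h3
    omega
  -- the best cycle
  obtain ⟨l0, ⟨hl0c, hl0A⟩, hmax⟩ := exists_max
    (fun l : List V => Cyc G l ∧ ∀ x ∈ l, x ∈ A)
    (fun l => l.length * 2 ^ (9 * ch2 G l.toFinset))
    (Fintype.card V * 2 ^ (9 * (2 * F (k (lam A)))))
    (by
      rintro l ⟨hl, hlA⟩
      refine Nat.mul_le_mul (hlen l hl) (Nat.pow_le_pow_right (by norm_num) ?_)
      have h3 := hch l hl
      have h4 := hchm l hl hlA
      omega)
    ⟨l1, hl1, hl1A⟩
  have hq : ch2 G l0.toFinset < 2 * F (k (lam A)) := by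
    have h3 := hch l0 hl0c
    have h4 := hchm l0 hl0c hl0A
    omega
  have hll : lam A ≤ l0.length * 2 ^ (18 * F (k (lam A))) := by
    have h3 := hmax l1 ⟨hl1, hl1A⟩
    rw [hl1len] at h3
    have h4 : lam A ≤ lam A * 2 ^ (9 * ch2 G l1.toFinset) :=
      Nat.le_mul_of_pos_right _ (by positivity)
    refine (h4.trans h3).trans (Nat.mul_le_mul_left _ (Nat.pow_le_pow_right (by norm_num) ?_))
    omega
  obtain ⟨c, hc1, hc2, _, _⟩ := h2 V G l0 hl0c
  have hmaxX : ∀ l, Cyc G l → (∀ x ∈ l, x ∈ A) → l0.length ≤ 256 * l.length →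
      ch2 G l.toFinset ≤ ch2 G l0.toFinset := by
    intro l hl hlA hlen2
    by_contra hcon
    push Not at hcon
    have h3 := hmax l ⟨hl, hlA⟩
    have h4 : 2 ^ (9 * ch2 G l0.toFinset) * 512 ≤ 2 ^ (9 * ch2 G l.toFinset) := by
      have e : (512 : ℕ) = 2 ^ 9 := by norm_num
      rw [e, ← pow_add]
      exact Nat.pow_le_pow_right (by norm_num) (by omega)
    have h5 : 0 < 2 ^ (9 * ch2 G l0.toFinset) := by positivity
    have h6 : 3 ≤ l0.length := hl0c.1
    have h7 : 3 ≤ l.length := hl.1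
    have h8 : l.length * (2 ^ (9 * ch2 G l0.toFinset) * 512) ≤
        l0.length * 2 ^ (9 * ch2 G l0.toFinset) := (Nat.mul_le_mul_left _ h4).trans h3
    have h9 : (l.length * 512) * 2 ^ (9 * ch2 G l0.toFinset) ≤
        l0.length * 2 ^ (9 * ch2 G l0.toFinset) := by
      calc (l.length * 512) * 2 ^ (9 * ch2 G l0.toFinset)
          = l.length * (2 ^ (9 * ch2 G l0.toFinset) * 512) := by ring
        _ ≤ _ := h8
    have h10 := Nat.le_of_mul_le_mul_right h9 h5
    omega
  have hok : Ok (⟨G, A, B, k, F, F (k (lam A)), ch2 G l0.toFinset, l0.length⟩ : Cx V) := by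
    refine ⟨hBA, hdegA, hk, hF, hF2, hF4, hFk4, ?_, ?_, hchm, ?_, hmaxX, hbig _ _ hll hm1⟩
    · -- regions
      intro P hPA hPne hPB hPn
      simp only at hPA hPB hPn ⊢
      have hsub : P ∪ nbr G A P ⊆ A := by
        intro x hx
        rcases Finset.mem_union.1 hx with hx | hx
        · exact hPA hx
        · exact (mem_nbr.1 hx).1
      have hcard : (P ∪ nbr G A P).card < A.card :=
        Finset.card_lt_card (Finset.ssubset_iff_subset_ne.2 ⟨hsub, hPn⟩)
      have hbig2 : k (lam (P ∪ nbr G A P)) + 2 < (nbr G A P).card := by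
        by_contra hcon
        push Not at hcon
        have h3 := hmin (P ∪ nbr G A P, nbr G A P) ⟨Finset.subset_union_right,
          hsub.trans hAW, ?_, ?_, hcon⟩
        · simp only at h3
          omega
        · obtain ⟨x, hx⟩ := hPne
          refine ⟨x, ?_⟩
          rw [Finset.mem_sdiff]
          exact ⟨Finset.mem_union_left _ hx, fun h => (mem_nbr.1 h).2.1 hx⟩
        · intro v hv hvn w hw hvw
          simp only at hv hvn ⊢
          have hvP : v ∈ P := by
            rcases Finset.mem_union.1 hv with h | h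
            · exact h
            · exact absurd h hvn
          have hvB : v ∉ B := fun h => (Finset.disjoint_left.1 hPB) hvP h
          have hwA : w ∈ A := hcl v (hPA hvP) hvB w hw hvw
          by_cases hwP : w ∈ P
          · exact Finset.mem_union_left _ hwP
          · exact Finset.mem_union_right _ (mem_nbr.2 ⟨hwA, hwP, v, hvP, hvw⟩)
      refine ⟨by omega, ?_⟩
      intro l hl hlP
      have h3 := hk (hlam1 _ l hl hlP)
      omega
    · -- chords
      intro l hl _
      exact hch l hl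
    · -- four sets with the same neighbours
      intro Y hY1 hY2 hY3
      simp only at hY1 hY3
      have hYW : ∀ i, Y i ⊆ W := fun i => (hY1 i).2.1.trans hAW
      have hW' : ∀ i, i ≠ 3 → ∀ x ∈ Y i, x ∈ W \ Y 3 := by
        intro i hi x hx
        rw [Finset.mem_sdiff]
        exact ⟨hYW i hx, fun h => (Finset.disjoint_left.1 (hY2 i 3 hi)) hx h⟩
      have h3 := hWmin (W \ Y 3) ⟨?_, ?_⟩
      · obtain ⟨x, hx⟩ := (hY1 3).1
        have h4 : (W \ Y 3).card < W.card := by
          refine Finset.card_lt_card ?_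
          rw [Finset.ssubset_iff_subset_ne]
          refine ⟨Finset.sdiff_subset, ?_⟩
          intro he
          have h5 : x ∈ W \ Y 3 := by
            rw [he]
            exact hYW 3 hx
          exact (Finset.mem_sdiff.1 h5).2 hx
        omega
      · obtain ⟨x, hx⟩ := (hY1 0).1
        exact ⟨x, hW' 0 (by decide) x hx⟩
      · intro v hv
        by_cases hvN : v ∈ nbr G A (Y 3)
        · have hp : ∀ i, i ≠ 3 → ∃ p ∈ Y i, p ∈ nbr G (W \ Y 3) {v} := by
            intro i hi
            have h4 : v ∈ nbr G A (Y i) := by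
              rw [hY3 i 3]
              exact hvN
            obtain ⟨_, _, p, hp, hpv⟩ := mem_nbr.1 h4
            exact ⟨p, hp, mem_nbr1.2 ⟨hW' i hi p hp, hpv.symm⟩⟩
          obtain ⟨p0, hp0, hp0'⟩ := hp 0 (by decide)
          obtain ⟨p1, hp1, hp1'⟩ := hp 1 (by decide)
          obtain ⟨p2, hp2, hp2'⟩ := hp 2 (by decide)
          have h01 : p0 ≠ p1 := by
            rintro rfl
            exact (Finset.disjoint_left.1 (hY2 0 1 (by decide))) hp0 hp1
          have h02 : p0 ≠ p2 := by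
            rintro rfl
            exact (Finset.disjoint_left.1 (hY2 0 2 (by decide))) hp0 hp2
          have h12 : p1 ≠ p2 := by
            rintro rfl
            exact (Finset.disjoint_left.1 (hY2 1 2 (by decide))) hp1 hp2
          have h5 : ({p0, p1, p2} : Finset V) ⊆ nbr G (W \ Y 3) {v} := by
            intro x hx
            simp only [Finset.mem_insert, Finset.mem_singleton] at hx
            rcases hx with rfl | rfl | rfl
            · exact hp0'
            · exact hp1'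
            · exact hp2'
          have h6 : ({p0, p1, p2} : Finset V).card = 3 :=
            Finset.card_eq_three.2 ⟨p0, p1, p2, h01, h02, h12, rfl⟩
          exact h6.ge.trans (Finset.card_le_card h5)
        · have hvW := (Finset.mem_sdiff.1 hv).1
          refine (hWdeg v hvW).trans (Finset.card_le_card ?_)
          intro w hw
          rw [mem_nbr1] at hw ⊢
          refine ⟨Finset.mem_sdiff.2 ⟨hw.1, ?_⟩, hw.2⟩
          intro hw3
          apply hvN
          have hwB : w ∉ B := fun h => (Finset.disjoint_left.1 (hY1 3).2.2) hw3 h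
          exact mem_nbr.2 ⟨hcl w ((hY1 3).2.1 hw3) hwB v hvW hw.2.symm,
            (Finset.mem_sdiff.1 hv).2, w, hw3, hw.2.symm⟩
  refine ⟨⟨G, A, B, k, F, F (k (lam A)), ch2 G l0.toFinset, l0.length⟩, c, lam A, rfl, rfl, rfl,
    hok, ?_, hm1, hll, hB⟩
  refine ⟨hc1, ?_, ?_, ?_⟩
  · intro i hi
    apply hl0A
    rw [← List.mem_toFinset, ← hc2]
    exact Finset.mem_image.2 ⟨i, Finset.mem_range.2 hi, rfl⟩
  · simp only
    rw [hc2]
  · simp only
    omega

end Pool.Agent.W891.CH.REG
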